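import Mathlib

set_option autoImplicit false

open Set Topology Filter

namespace Pool.Agent.Results.MP_a29c66_gt.KRNotK

/-- The sequential fan. -/
inductive Fan : Type
  | inf : Fan
  | pt : ℕ → ℕ → Fan

instance : TopologicalSpace Fan where
  IsOpen U := Fan.inf ∈ U → ∃ f : ℕ → ℕ, ∀ n m, f n ≤ m → Fan.pt n m ∈ U
  isOpen_univ := fun _ => ⟨fun _ => 0, fun _ _ _ => trivial⟩
  isOpen_inter := by
    rintro U V hU hV ⟨h1, h2⟩
    obtain ⟨f, hf⟩ := hU h1
    obtain ⟨g, hg⟩ := hV h2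
    exact ⟨fun n => max (f n) (g n), fun n m h =>
      ⟨hf n m ((le_max_left _ _).trans h), hg n m ((le_max_right _ _).trans h)⟩⟩
  isOpen_sUnion := by
    rintro S hS ⟨U, hU, h⟩
    obtain ⟨f, hf⟩ := hS U hU h
    exact ⟨f, fun n m h => ⟨U, hU, hf n m h⟩⟩

lemma fan_open {U : Set Fan} :
    IsOpen U ↔ (Fan.inf ∈ U → ∃ f : ℕ → ℕ, ∀ n m, f n ≤ m → Fan.pt n m ∈ U) := Iff.rfl

lemma fan_tendsto (n : ℕ) {k : ℕ → ℕ} (hk : Tendsto k atTop atTop) :
    Tendsto (fun j => Fan.pt n (k j)) atTop (𝓝 Fan.inf) := by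
  refine tendsto_nhds.2 fun U hU h => ?_
  obtain ⟨f, hf⟩ := hU h
  filter_upwards [hk.eventually (eventually_ge_atTop (f n))] with j hj using hf _ _ hj

lemma fan_pt_clopen (n m : ℕ) : IsClopen ({Fan.pt n m} : Set Fan) :=
  ⟨⟨fun _ => ⟨fun _ => m + 1, fun k j hj h => by cases h; exact absurd hj (by simp)⟩⟩,
    fun h => by cases h⟩

lemma t35_of {X : Type} [TopologicalSpace X] [T0Space X]
    (h : ∀ U : Set X, IsOpen U → ∀ x ∈ U, ∃ V, IsClopen V ∧ x ∈ V ∧ V ⊆ U) : T35Space X := by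
  haveI := CompletelyRegularSpace.of_isTopologicalBasis_clopens
    (TopologicalSpace.isTopologicalBasis_of_isOpen_of_nhds (s := {s : Set X | IsClopen s})
      (fun _ hu => hu.isOpen) fun x U hx hU => h U hU x hx)
  exact {}

instance : T1Space Fan := ⟨fun x => by
  cases x with
  | inf => exact ⟨fun h => absurd rfl h⟩
  | pt n m => exact (fan_pt_clopen n m).isClosed⟩

instance : T35Space Fan := t35_of fun U hU x hx => by
  cases x with
  | inf => exact ⟨U, ⟨⟨fun h => absurd hx h⟩, hU⟩, hx, Subset.rfl⟩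
  | pt n m => exact ⟨_, fan_pt_clopen n m, rfl, singleton_subset_iff.2 hx⟩

instance : SequentialSpace Fan := ⟨fun s hs => ⟨fun h => by
  have : ∀ n, ∃ M, ∀ m, M ≤ m → Fan.pt n m ∉ s := by
    intro n
    by_contra hc
    push Not at hc
    choose k hk hks using hc
    exact h (hs hks (fan_tendsto n (tendsto_atTop_mono hk tendsto_id)))
  choose f hf using this
  exact ⟨f, hf⟩⟩⟩

/-- Countably many copies of the Mrowka space of `A` converging to a point. -/
inductive Psi (A : Set (Set ℕ)) : Type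
  | inf : Psi A
  | iso : ℕ → ℕ → Psi A
  | lim : ℕ → A → Psi A

variable {A : Set (Set ℕ)}

/-- the point lies on a level `≥ N` -/
def Lev (N : ℕ) : Psi A → Prop
  | .inf => True
  | .iso n _ => N ≤ n
  | .lim n _ => N ≤ n

lemma Lev.mono {N M : ℕ} (h : N ≤ M) {y : Psi A} (hy : Lev M y) : Lev N y := by
  cases y with
  | inf => trivial
  | iso n _ => exact h.trans hy
  | lim n _ => exact h.trans hy

instance : TopologicalSpace (Psi A) where
  IsOpen U := (∀ n a, Psi.lim n a ∈ U → ∃ M, ∀ k, M ≤ k → k ∈ a.1 → Psi.iso n k ∈ U) ∧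
    (Psi.inf ∈ U → ∃ N, ∀ y, Lev N y → y ∈ U)
  isOpen_univ := ⟨fun _ _ _ => ⟨0, fun _ _ _ => trivial⟩, fun _ => ⟨0, fun _ _ => trivial⟩⟩
  isOpen_inter := by
    rintro U V hU hV
    constructor
    · rintro n a ⟨h1, h2⟩
      obtain ⟨k, hk⟩ := hU.1 n a h1
      obtain ⟨l, hl⟩ := hV.1 n a h2
      exact ⟨max k l, fun m h h' =>
        ⟨hk m ((le_max_left _ _).trans h) h', hl m ((le_max_right _ _).trans h) h'⟩⟩
    · rintro ⟨h1, h2⟩
      obtain ⟨k, hk⟩ := hU.2 h1
      obtain ⟨l, hl⟩ := hV.2 h2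
      exact ⟨max k l, fun y h => ⟨hk y (h.mono (le_max_left _ _)), hl y (h.mono (le_max_right _ _))⟩⟩
  isOpen_sUnion := by
    intro S hS
    constructor
    · rintro n a ⟨U, hU, h⟩
      obtain ⟨k, hk⟩ := (hS U hU).1 n a h
      exact ⟨k, fun m h h' => ⟨U, hU, hk m h h'⟩⟩
    · rintro ⟨U, hU, h⟩
      obtain ⟨k, hk⟩ := (hS U hU).2 h
      exact ⟨k, fun m h => ⟨U, hU, hk m h⟩⟩

lemma tends_inf {u : ℕ → Psi A} (h : ∀ j, Lev j (u j)) : Tendsto u atTop (𝓝 Psi.inf) := by
  refine tendsto_nhds.2 fun U hU h' => ?_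
  obtain ⟨N, hN⟩ := hU.2 h'
  filter_upwards [eventually_ge_atTop N] with j hj using hN _ ((h j).mono hj)

lemma tends_lim (n : ℕ) (a : A) {k : ℕ → ℕ} (hk : Tendsto k atTop atTop) (ha : ∀ j, k j ∈ a.1) :
    Tendsto (fun j => (Psi.iso n (k j) : Psi A)) atTop (𝓝 (Psi.lim n a)) := by
  refine tendsto_nhds.2 fun U hU h' => ?_
  obtain ⟨M, hM⟩ := hU.1 n a h'
  filter_upwards [hk.eventually (eventually_ge_atTop M)] with j hj using hM _ hj (ha j)

instance : SequentialSpace (Psi A) := ⟨fun s hs => ⟨⟨fun n a h => by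
  by_contra hc
  push Not at hc
  choose k hk hka hks using hc
  exact h (hs (fun j => not_not.1 (hks j)) (tends_lim n a (tendsto_atTop_mono hk tendsto_id) hka)),
  fun h => by
  by_contra hc
  push Not at hc
  choose u hu hus using hc
  exact h (hs (fun j => not_not.1 (hus j)) (tends_inf hu))⟩⟩⟩

lemma iso_clopen (n k : ℕ) : IsClopen ({Psi.iso n k} : Set (Psi A)) := by
  refine ⟨⟨⟨fun m a _ => ⟨k + 1, fun j hj _ h => ?_⟩, fun _ => ⟨n + 1, fun y hy h => ?_⟩⟩⟩,
    ⟨fun _ _ h => ?_, fun h => ?_⟩⟩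
  · cases h; omega
  · cases h; exact absurd hy (by simp [Lev])
  · cases h
  · cases h

instance : T1Space (Psi A) := ⟨fun x => by
  cases x with
  | inf => exact ⟨⟨fun _ _ _ => ⟨0, fun _ _ _ h => by cases h⟩, fun h => absurd rfl h⟩⟩
  | iso n m => exact (iso_clopen n m).isClosed
  | lim n a =>
    refine ⟨⟨fun _ _ _ => ⟨0, fun _ _ _ h => by cases h⟩, fun _ => ⟨n + 1, fun y hy h => ?_⟩⟩⟩
    cases h; exact absurd hy (by simp [Lev])⟩

lemma psi_t35 (hA : ∀ a ∈ A, ∀ b ∈ A, a ≠ b → (a ∩ b).Finite) : T35Space (Psi A) := by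
  refine t35_of fun U hU x hx => ?_
  cases x with
  | iso n m => exact ⟨_, iso_clopen n m, rfl, singleton_subset_iff.2 hx⟩
  | inf =>
    obtain ⟨N, hN⟩ := hU.2 hx
    exact ⟨{y | Lev N y}, ⟨⟨⟨fun n a h => ⟨0, fun _ _ _ => h⟩, fun h => absurd trivial h⟩⟩,
      ⟨fun n a h => ⟨0, fun _ _ _ => h⟩, fun _ => ⟨N, fun _ h => h⟩⟩⟩, trivial, hN⟩
  | lim n a =>
    obtain ⟨M, hM⟩ := hU.1 n a hx
    refine ⟨{y | y = Psi.lim n a ∨ ∃ k, M ≤ k ∧ k ∈ a.1 ∧ y = Psi.iso n k},
      ⟨⟨⟨fun m b h => ?_, fun _ => ⟨n + 1, fun y hy h => ?_⟩⟩⟩, ⟨fun m b h => ?_, fun h => ?_⟩⟩,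
      Or.inl rfl, ?_⟩
    · by_cases hm : m = n
      · subst hm
        have hab : a.1 ≠ b.1 := fun h' => h (Or.inl (by rw [Subtype.ext h']))
        obtain ⟨B, hB⟩ := (hA _ a.2 _ b.2 hab).bddAbove
        refine ⟨B + 1, fun k hk hkb h' => ?_⟩
        rcases h' with h' | ⟨j, -, hj, h'⟩
        · cases h'
        · cases h'
          have := hB ⟨hj, hkb⟩
          omega
      · refine ⟨0, fun k _ _ h' => ?_⟩
        rcases h' with h' | ⟨j, -, -, h'⟩
        · cases h'
        · cases h'; exact hm rfl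
    · rcases h with rfl | ⟨j, -, -, rfl⟩ <;> exact absurd hy (by simp [Lev])
    · rcases h with h | ⟨j, -, -, h⟩
      · cases h
        exact ⟨M, fun k hk hka => Or.inr ⟨k, hk, hka, rfl⟩⟩
      · cases h
    · rcases h with h | ⟨j, -, -, h⟩ <;> cases h
    · rintro _ (rfl | ⟨k, hk, hka, rfl⟩)
      · exact hx
      · exact hM k hk hka

lemma psi_dense (hA : ∀ a ∈ A, a.Infinite) {U : Set (Psi A)} (hU : IsOpen U) (hne : U.Nonempty) :
    ∃ n k, Psi.iso n k ∈ U := by
  obtain ⟨y, hy⟩ := hne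
  cases y with
  | iso n k => exact ⟨n, k, hy⟩
  | inf =>
    obtain ⟨N, hN⟩ := hU.2 hy
    exact ⟨N, 0, hN _ (le_refl N)⟩
  | lim n a =>
    obtain ⟨M, hM⟩ := hU.1 n a hy
    obtain ⟨k, hk, hMk⟩ := (hA _ a.2).exists_gt M
    exact ⟨n, k, hM k hMk.le hk⟩

lemma psi_subseq (hA : ∀ s : Set ℕ, s.Infinite → ∃ a ∈ A, (a ∩ s).Infinite) (n k : ℕ → ℕ) :
    ∃ (y : Psi A) (φ : ℕ → ℕ), Tendsto φ atTop atTop ∧
      Tendsto (fun j => (Psi.iso (n (φ j)) (k (φ j)) : Psi A)) atTop (𝓝 y) := by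
  by_cases h1 : ∀ N, ∃ᶠ j in atTop, N ≤ n j
  · obtain ⟨φ, hφ, h⟩ := extraction_forall_of_frequently h1
    exact ⟨_, φ, hφ.tendsto_atTop, tends_inf h⟩
  · push Not at h1
    obtain ⟨N, hN⟩ := h1
    obtain ⟨m, hm⟩ : ∃ m, ∃ᶠ j in atTop, n j = m := by
      by_contra hc
      push Not at hc
      have h2 : ∀ᶠ j in atTop, ∀ m ∈ Finset.range N, n j ≠ m :=
        (eventually_all_finset _).2 fun m _ => hc m
      obtain ⟨j, h3, h4⟩ := (hN.and h2).exists
      exact h4 _ (Finset.mem_range.2 h3) rfl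
    obtain ⟨ψ, hψ, hψm⟩ := extraction_of_frequently_atTop hm
    by_cases h2 : ∃ c, ∃ᶠ j in atTop, k (ψ j) = c
    · obtain ⟨c, hc⟩ := h2
      obtain ⟨φ, hφ, h⟩ := extraction_of_frequently_atTop hc
      refine ⟨Psi.iso m c, ψ ∘ φ, (hψ.comp hφ).tendsto_atTop, ?_⟩
      simp only [Function.comp, hψm, h]
      exact tendsto_const_nhds
    · push Not at h2
      have h3 : Tendsto (fun j => k (ψ j)) atTop atTop := by
        refine tendsto_atTop.2 fun B => ?_
        filter_upwards [(eventually_all_finset (Finset.range B)).2 fun c _ => h2 c] with j hj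
        by_contra hc
        exact hj _ (Finset.mem_range.2 (not_le.1 hc)) rfl
      obtain ⟨a, ha, hinf⟩ := hA (range fun j => k (ψ j)) (infinite_of_not_bddAbove
        (not_bddAbove_of_tendsto_atTop h3))
      have h4 : ∃ᶠ j in atTop, k (ψ j) ∈ a := by
        rw [Nat.frequently_atTop_iff_infinite]
        intro hfin
        refine hinf ((hfin.image fun j => k (ψ j)).subset ?_)
        rintro _ ⟨h5, j, rfl⟩
        exact ⟨j, h5, rfl⟩
      obtain ⟨φ, hφ, h⟩ := extraction_of_frequently_atTop h4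
      refine ⟨Psi.lim m ⟨a, ha⟩, ψ ∘ φ, (hψ.comp hφ).tendsto_atTop, ?_⟩
      simp only [Function.comp, hψm]
      exact tends_lim m ⟨a, ha⟩ (h3.comp hφ.tendsto_atTop) h

lemma exists_mad : ∃ (A : Set (Set ℕ)) (c : ℕ → A), Function.Injective c ∧ (∀ a ∈ A, a.Infinite) ∧
    (∀ a ∈ A, ∀ b ∈ A, a ≠ b → (a ∩ b).Finite) ∧
    ∀ s : Set ℕ, s.Infinite → ∃ a ∈ A, (a ∩ s).Infinite := by
  let P : ℕ → Set ℕ := fun i => {k | k.unpair.1 = i}
  have hP : Function.Injective P := fun i j h => by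
    have : Nat.pair i 0 ∈ P j := h ▸ (by simp [P])
    simpa [P] using this
  obtain ⟨A, hPA, hA⟩ := zorn_subset_nonempty
    {A : Set (Set ℕ) | (∀ a ∈ A, a.Infinite) ∧ A.Pairwise fun a b => (a ∩ b).Finite}
    (fun c hc hch _ => ⟨⋃₀ c, ⟨fun a ⟨S, hS, ha⟩ => (hc hS).1 a ha,
      (pairwise_sUnion hch.directedOn).2 fun S hS => (hc hS).2⟩, fun _ h => subset_sUnion_of_mem h⟩)
    (range P) ⟨by
      rintro _ ⟨i, rfl⟩
      refine infinite_of_injective_forall_mem (f := fun k => Nat.pair i k) ?_ (by simp [P])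
      intro a b h
      simpa using h, by
      rintro _ ⟨i, rfl⟩ _ ⟨j, rfl⟩ h
      refine finite_empty.subset fun k hk => h ?_
      rw [show i = j from hk.1.symm.trans hk.2]⟩
  refine ⟨A, fun i => ⟨P i, hPA ⟨i, rfl⟩⟩, fun i j h => hP (congrArg Subtype.val h), hA.prop.1,
    fun a ha b hb h => hA.prop.2 ha hb h, fun s hs => ?_⟩
  by_contra hc
  push Not at hc
  have h1 : insert s A ⊆ A := hA.le_of_ge ⟨by
      rintro a (rfl | ha)
      · exact hs
      · exact hA.prop.1 a ha, by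
      refine hA.prop.2.insert fun a ha _ => ⟨?_, hc a ha⟩
      rw [inter_comm]; exact hc a ha⟩ (subset_insert _ _)
  have := hc s (h1 (mem_insert _ _))
  rw [inter_self] at this
  exact hs this

lemma seq_cont {Z : Type} [TopologicalSpace Z] {f : Z → ℝ}
    (hf : ∀ K : Set Z, IsCompact K → ContinuousOn f K) {u : ℕ → Z} {z : Z}
    (hu : Tendsto u atTop (𝓝 z)) : Tendsto (fun j => f (u j)) atTop (𝓝 (f z)) :=
  (hf _ hu.isCompact_insert_range z (mem_insert _ _)).tendsto.comp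
    (tendsto_nhdsWithin_iff.2 ⟨hu, Eventually.of_forall fun n => Or.inr ⟨n, rfl⟩⟩)

lemma fin_of_compact {Z : Type} [TopologicalSpace Z] {K : Set Z} (hK : IsCompact K) (c : ℕ → Z)
    (hc : Function.Injective c) (hop : ∀ N, IsOpen {x | ∀ n, N ≤ n → x ≠ c n}) :
    ∃ N, ∀ n, c n ∈ K → n < N := by
  obtain ⟨N, hN⟩ := hK.elim_directed_cover _ hop (fun x _ => by
      by_cases h : ∃ n, x = c n
      · obtain ⟨n, rfl⟩ := h
        refine mem_iUnion.2 ⟨n + 1, fun k hk h => ?_⟩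
        have := hc h
        omega
      · exact mem_iUnion.2 ⟨0, fun k _ h' => h ⟨k, h'⟩⟩)
    (directed_of_isDirected_le fun N M h x hx n hn => hx n (h.trans hn))
  exact ⟨N, fun n h => by
    by_contra hc
    exact hN h n (not_lt.1 hc) rfl⟩

/-- Two sequential spaces whose product is a (Tychonoff) `k_ℝ`-space but not a `k`-space. -/
theorem result :
    ∃ (X Y : Type) (_ : TopologicalSpace X) (_ : TopologicalSpace Y),
      SequentialSpace X ∧ SequentialSpace Y ∧ T35Space (X × Y) ∧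
      (∀ f : X × Y → ℝ, (∀ K : Set (X × Y), IsCompact K → ContinuousOn f K) → Continuous f) ∧
      ¬ (∀ F : Set (X × Y),
          (∀ K : Set (X × Y), IsCompact K → IsClosed ((Subtype.val : K → X × Y) ⁻¹' F)) →
          IsClosed F) := by
  classical
  obtain ⟨A, c, hc, hA1, hA2, hA3⟩ := exists_mad
  haveI := psi_t35 hA2
  refine ⟨Fan, Psi A, inferInstance, inferInstance, inferInstance, inferInstance, inferInstance,
    fun f hf => ?_, fun h => ?_⟩
  · have h1 : ∀ x : Fan, Continuous fun y => f (x, y) := fun x =>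
      SeqContinuous.continuous fun u y hu => seq_cont hf (tendsto_const_nhds.prodMk_nhds hu)
    rw [continuous_iff_continuousAt]
    rintro ⟨x, y⟩
    cases x with
    | pt n m =>
      refine ((h1 (Fan.pt n m)).comp continuous_snd).continuousAt.congr ?_
      filter_upwards [((fan_pt_clopen n m).isOpen.preimage continuous_fst).mem_nhds rfl] with p hp
      have : p.1 = Fan.pt n m := hp
      simp only [Function.comp, ← this]
    | inf =>
      have h2 : ∀ ε > 0, ∀ n, ∃ M, ∀ m, M ≤ m → ∀ y, dist (f (Fan.pt n m, y)) (f (Fan.inf, y)) ≤ ε := by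
        intro ε hε n
        by_contra hcon
        push Not at hcon
        choose m hm z hz using hcon
        have h3 := fun j => psi_dense hA1
          (isOpen_lt continuous_const ((h1 (Fan.pt n (m j))).dist (h1 Fan.inf))) ⟨z j, hz j⟩
        choose l k hlk using h3
        obtain ⟨w, φ, hφ, hw⟩ := psi_subseq hA3 l k
        have h4 := seq_cont hf
          ((fan_tendsto n ((tendsto_atTop_mono hm tendsto_id).comp hφ)).prodMk_nhds hw)
        have h5 := h4.dist (((h1 Fan.inf).tendsto w).comp hw)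
        rw [dist_self] at h5
        obtain ⟨j, hj⟩ := (h5.eventually (gt_mem_nhds hε)).exists
        exact absurd (hlk (φ j)) (not_lt.2 hj.le)
      rw [ContinuousAt, Metric.tendsto_nhds]
      intro ε hε
      choose g hg using h2 (ε / 2) (by linarith)
      have h3 : IsOpen {x : Fan | ∀ n m, x = Fan.pt n m → g n ≤ m} :=
        fun _ => ⟨g, fun n m h _ _ h' => by cases h'; exact h⟩
      have h4 := Metric.tendsto_nhds.1 ((h1 Fan.inf).tendsto y) (ε / 2) (by linarith)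
      filter_upwards [prod_mem_nhds (h3.mem_nhds (x := Fan.inf) fun _ _ h => by cases h) h4]
        with p hp
      obtain ⟨x, w⟩ := p
      have h5 : dist (f (Fan.inf, w)) (f (Fan.inf, y)) < ε / 2 := hp.2
      cases x with
      | inf => linarith
      | pt n m =>
        have h6 := hg n m (hp.1 n m rfl) w
        linarith [dist_triangle (f (Fan.pt n m, w)) (f (Fan.inf, w)) (f (Fan.inf, y))]
  · have h1 := h {p | ∃ n m, p = (Fan.pt n m, Psi.lim n (c m))} fun K hK => by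
      have hK1 := hK.image continuous_fst
      have hK2 := hK.image continuous_snd
      let g : ℕ → ℕ := fun n => if h : ∃ m, Fan.pt n m ∈ Prod.fst '' K then h.choose else 0
      obtain ⟨N, hN⟩ := fin_of_compact hK1 (fun n => Fan.pt n (g n))
        (fun _ _ h => by cases h; rfl) fun N _ => ⟨fun n => g n + 1, fun n m hm k _ h => by
          cases h; exact absurd hm (by simp)⟩
      have h2 := fun n => fin_of_compact hK2 (fun m => Psi.lim n (c m))
        (fun _ _ h => hc (by injection h)) fun N =>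
          ⟨fun _ _ _ => ⟨0, fun _ _ _ _ _ h => by cases h⟩, fun _ => ⟨n + 1, fun y hy k _ h => by
            subst h; exact absurd hy (by simp [Lev])⟩⟩
      choose M hM using h2
      refine Finite.isClosed (Finite.of_finite_image ?_ Subtype.val_injective.injOn)
      refine ((finite_Iio N).biUnion fun n _ => (finite_Iio (M n)).image
        fun m => (Fan.pt n m, Psi.lim n (c m))).subset ?_
      rintro _ ⟨⟨p, hp⟩, ⟨n, m, h3⟩, rfl⟩
      have h3' : p = (Fan.pt n m, Psi.lim n (c m)) := h3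
      subst h3'
      have h4 : ∃ m, Fan.pt n m ∈ Prod.fst '' K := ⟨m, _, hp, rfl⟩
      refine mem_biUnion (hN n ?_) ⟨m, hM n m ⟨_, hp, rfl⟩, rfl⟩
      simp only [g, dif_pos h4]
      exact h4.choose_spec
    obtain ⟨U, V, hU, hV, h2, h3, h4⟩ := isOpen_prod_iff.1 h1.isOpen_compl Fan.inf Psi.inf (by
      rintro ⟨n, m, h⟩; cases h)
    obtain ⟨g, hg⟩ := hU h2
    obtain ⟨N, hN⟩ := hV.2 h3
    exact h4 (mk_mem_prod (hg N _ le_rfl) (hN (Psi.lim N (c (g N))) (le_refl N))) ⟨N, g N, rfl⟩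

end Pool.Agent.Results.MP_a29c66_gt.KRNotK
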